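import Pool.Agent.H59.LIN.Targets
import Mathlib.NumberTheory.Zsqrtd.ToReal

/-!
# Board lin_modules, row ISQ: the HOMFLYPT polynomial at `s = δ = √2`
-/

set_option autoImplicit false

namespace Pool.Agent.H54.LIN

open Pool.Agent.H59.LIN

/-- the image of a skein invariant under a ring homomorphism -/
theorem map_skn {K L : Type} [CommRing K] [CommRing L] (f : K →+* L) {s δ : K}
    {T : (n : ℕ) → Wd n → K} (h : Skn s δ T) : Skn (f s) (f δ) (fun n w => f (T n w)) where
  one := by simp only [h.one, map_one]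
  dis n w := by simp only [h.dis, map_mul]
  stab n w b := by simp only [h.stab]
  conj n u v := by rw [h.conj]
  cancel n u v i b := by simp only [h.cancel]
  far n u v i j b c hij := by simp only [h.far n u v i j b c hij]
  braid n u v i j hij := by simp only [h.braid n u v i j hij]
  skein n u v i := by simp only [h.skein, map_add, map_mul, map_sub, map_one]

theorem two_ne (n : ℤ) : (2 : ℤ) ≠ n * n := by
  intro h
  rcases le_or_gt n.natAbs 1 with h1 | h1
  · have h2 : n * n = (n.natAbs : ℤ) * n.natAbs := by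
      rw [← Int.natAbs_mul_self]; push_cast; rfl
    rw [h2] at h
    have h3 : (n.natAbs : ℤ) ≤ 1 := by exact_mod_cast h1
    have h4 : (0 : ℤ) ≤ n.natAbs := by positivity
    nlinarith
  · have h2 : n * n = (n.natAbs : ℤ) * n.natAbs := by
      rw [← Int.natAbs_mul_self]; push_cast; rfl
    rw [h2] at h
    have h3 : (2 : ℤ) ≤ n.natAbs := by exact_mod_cast h1
    nlinarith

/-- the embedding `ℤ√2 → ℝ` -/
noncomputable def em : Zsqrtd 2 →+* ℝ := Zsqrtd.toReal (by norm_num)

theorem em_inj : Function.Injective em := Zsqrtd.toReal_injective _ two_ne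

theorem em_r2 : em r2 = √2 := by
  unfold em r2
  simp [Zsqrtd.toReal]

theorem pf_ISQ (hUQ : T_UQ) (hCLA : T_CLA) (hCLB : T_CLB) : T_ISQ := by
  intro T hT n w hw
  have h1 : Skn (√2 : ℝ) √2 (fun n w => em (T n w)) := by
    have := map_skn em hT
    rwa [em_r2] at this
  have h2 : (1 - √2 * √2 : ℝ) * (-1) = 1 := by
    rw [Real.mul_self_sqrt (by norm_num)]; norm_num
  have h3 := hUQ ℝ √2 √2 (-1) _ _ h2 h1 hCLA n w
  have h4 := hCLB n w hw
  rw [← h3] at h4
  have h5 : em (T n w ^ 2) = em 1 := by
    rw [map_pow, map_one]; exact h4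
  have h6 : T n w ^ 2 = 1 := em_inj h5
  have h7 : (T n w - 1) * (T n w + 1) = 0 := by
    have : (T n w - 1) * (T n w + 1) = T n w ^ 2 - 1 := by ring
    rw [this, h6, sub_self]
  have h8 : em (T n w - 1) * em (T n w + 1) = 0 := by rw [← map_mul, h7, map_zero]
  rcases mul_eq_zero.1 h8 with h | h
  · left
    have h9 : T n w - 1 = 0 := em_inj (h.trans (map_zero em).symm)
    exact sub_eq_zero.1 h9
  · right
    have h9 : T n w + 1 = 0 := em_inj (h.trans (map_zero em).symm)
    exact eq_neg_of_add_eq_zero_left h9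

end Pool.Agent.H54.LIN
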